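import Pool.Agent.Lib.MP_374a5d_co.Glue

/-!
# Problem MP_374a5d_co, Question Q1

For every odd `n ≥ 29` there is a connected graph `G` of order `n` whose Maker-Breaker domination
number is `(n + 1) / 2`, the largest finite value that it can have.
-/

namespace Pool.Agent.Results.MP_374a5d_co.OddExtremal

open Finset Pool.Agent.MP374a5d

variable {U V : Type*} [DecidableEq U] [DecidableEq V]

omit [DecidableEq U] [DecidableEq V] in
theorem dominating_comap (e : U ≃ V) (G : SimpleGraph V) (D : Finset U) :
    Dominating (G.comap e) D ↔ Dominating G (D.map e.toEmbedding) := by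
  constructor
  · intro h v
    rcases h (e.symm v) with h | ⟨u, hu, huv⟩
    · left
      rw [mem_map_equiv]
      exact h
    · right
      refine ⟨e u, mem_map_of_mem e.toEmbedding hu, ?_⟩
      rw [SimpleGraph.comap_adj, Equiv.apply_symm_apply] at huv
      exact huv
  · intro h v
    rcases h (e v) with h | ⟨u, hu, huv⟩
    · left
      rw [mem_map_equiv, Equiv.symm_apply_apply] at h
      exact h
    · right
      rw [mem_map_equiv] at hu
      refine ⟨e.symm u, hu, ?_⟩
      rw [SimpleGraph.comap_adj, Equiv.apply_symm_apply]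
      exact huv

theorem wins_comap (e : U ≃ V) (G : SimpleGraph V) : ∀ (k : ℕ) (D S : Finset U),
    Wins (G.comap e) k D S ↔ Wins G k (D.map e.toEmbedding) (S.map e.toEmbedding) := by
  intro k
  have hmem : ∀ (D S : Finset U) (v : U), e v ∉ D.map e.toEmbedding ∪ S.map e.toEmbedding ↔
      v ∉ D ∪ S := by
    intro D S v
    simp only [mem_union, mem_map_equiv, Equiv.symm_apply_apply]
  induction k with
  | zero =>
    intro D S
    exact dominating_comap e G D
  | succ k ih =>
    intro D S
    have hins : ∀ (D : Finset U) (v : U), (insert v D).map e.toEmbedding =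
        insert (e v) (D.map e.toEmbedding) := by
      intro D v
      rw [map_insert]
      rfl
    rw [wins_succ, wins_succ, dominating_comap e G D]
    refine or_congr_right ?_
    have key : ∀ v, WinsS (G.comap e) k (insert v D) S ↔
        WinsS G k (insert (e v) (D.map e.toEmbedding)) (S.map e.toEmbedding) := by
      intro v
      rw [WinsS, WinsS, dominating_comap, hins]
      refine or_congr_right (and_congr ?_ ?_)
      · rw [← hins]
        constructor
        · rintro ⟨w, hw⟩
          exact ⟨e w, (hmem _ _ w).2 hw⟩
        · rintro ⟨w, hw⟩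
          refine ⟨e.symm w, (hmem _ _ _).1 ?_⟩
          rw [Equiv.apply_symm_apply]
          exact hw
      · rw [← hins]
        constructor
        · intro h w hw
          have h1 := h (e.symm w) ((hmem _ _ _).1 (by rw [Equiv.apply_symm_apply]; exact hw))
          rw [ih, hins S, Equiv.apply_symm_apply] at h1
          exact h1
        · intro h w hw
          have h1 := h (e w) ((hmem _ _ w).2 hw)
          rw [ih, hins S]
          exact h1
    constructor
    · rintro ⟨v, hv, h⟩
      exact ⟨e v, (hmem _ _ v).2 hv, (key v).1 h⟩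
    · rintro ⟨v, hv, h⟩
      refine ⟨e.symm v, (hmem _ _ _).1 (by rw [Equiv.apply_symm_apply]; exact hv), ?_⟩
      rw [key, Equiv.apply_symm_apply]
      exact h

theorem gammaMB_comap (e : U ≃ V) (G : SimpleGraph V) : gammaMB (G.comap e) = gammaMB G := by
  rw [gammaMB, gammaMB]
  have : ∀ k, Wins (G.comap e) k ∅ ∅ ↔ Wins G k ∅ ∅ := by
    intro k
    rw [wins_comap, map_empty]
  simp only [this]

/-- For every odd `n ≥ 29` there is a connected graph of order `n` with Maker-Breaker domination
number `(n + 1) / 2`. -/
theorem result : ∀ n : ℕ, Odd n → 29 ≤ n → ∃ G : SimpleGraph (Fin n),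
    G.Connected ∧ gammaMB G = (((n + 1) / 2 : ℕ) : ℕ∞) := by
  intro n hn h29
  obtain ⟨r, hr⟩ := hn
  obtain ⟨m, hm⟩ : ∃ m, n = 29 + 2 * m := ⟨r - 14, by omega⟩
  have e : Fin n ≃ Vx m := (Fintype.equivFinOfCardEq (by rw [card_vx, hm])).symm
  refine ⟨(gl m).comap e, ?_, ?_⟩
  · exact (SimpleGraph.Iso.comap e (gl m)).connected_iff.2 (connected_gl m)
  · rw [gammaMB_comap, gammaMB_gl]
    congr 1
    omega

end Pool.Agent.Results.MP_374a5d_co.OddExtremal
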